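import Pool.Agent.H81.RZ.MDefs

/-!
# Symmetric and alternating matrices of small rank with prescribed zeros
-/

set_option autoImplicit false

open CategoryTheory AlgebraicGeometry MvPolynomial Pool.Agent.Y116.UV Pool.Agent.H81.RZ

namespace Pool.Agent.H38.SA

/-- The polynomials defining the symmetric matrices of rank at most `k` with zeros at `Z`. -/
def syEqs {ι : Type} (R : Type) [CommRing R] (k : ℕ) (Z : Set (ι × ι)) :
    Set (MvPolynomial (ι × ι) R) :=
  rkEqs R k Z ∪ {g | ∃ i j, g = X (i, j) - X (j, i)}

/-- The ring of functions on the symmetric `n × n` matrices of rank at most `k` over `R` whose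
entries at the places `Z` are zero. -/
abbrev SyRk (R : Type) [CommRing R] (k : ℕ) {n : ℕ} (Z : Finset (Fin n × Fin n)) : Type :=
  MvPolynomial (Fin n × Fin n) R ⧸ Ideal.span (syEqs R k (Z : Set (Fin n × Fin n)))

/-- The polynomials defining the alternating matrices of rank at most `k` with zeros at `Z`. -/
def alEqs {ι : Type} (R : Type) [CommRing R] (k : ℕ) (Z : Set (ι × ι)) :
    Set (MvPolynomial (ι × ι) R) :=
  rkEqs R k Z ∪ ({g | ∃ i j, g = X (i, j) + X (j, i)} ∪ {g | ∃ i, g = X (i, i)})

/-- The ring of functions on the alternating `n × n` matrices of rank at most `k` over `R` whose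
entries at the places `Z` are zero. -/
abbrev AlRk (R : Type) [CommRing R] (k : ℕ) {n : ℕ} (Z : Finset (Fin n × Fin n)) : Type :=
  MvPolynomial (Fin n × Fin n) R ⧸ Ideal.span (alEqs R k (Z : Set (Fin n × Fin n)))

/-- `P` is true for the schemes of the symmetric `n × n` matrices of rank at most `r` with
prescribed zeros. -/
def OnSymmetric {R : Type} [CommRing R] (r : ℕ) (P : Sch R → Prop) : Prop :=
  ∀ (n : ℕ) (Z : Finset (Fin n × Fin n)), P (aff R (SyRk R r Z))

/-- `P` is true for the schemes of the alternating `n × n` matrices of rank at most `r` with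
prescribed zeros. -/
def OnAlternating {R : Type} [CommRing R] (r : ℕ) (P : Sch R → Prop) : Prop :=
  ∀ (n : ℕ) (Z : Finset (Fin n × Fin n)), P (aff R (AlRk R r Z))

end Pool.Agent.H38.SA
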