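import Pool.Agent.H81.RZ.Pre
import Pool.Agent.H38.SA.Defs

/-!
# Symmetric and antisymmetric matrices of small rank by their points
-/

set_option autoImplicit false

open CategoryTheory AlgebraicGeometry MvPolynomial Pool.Agent.Y116.UV Pool.Agent.Q282.UK
  Pool.Agent.H81.RZ

namespace Pool.Agent.H38.SA

variable {R : Type} [CommRing R] {sep : Prop} {P : Sch R → Prop}

/-- symmetric (`ε = 1`) or antisymmetric (`ε = -1`) matrices of rank at most `k`, zero at `Z`,
invertible at `U` -/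
def EM (R : Type) [CommRing R] {ι : Type} (ε : ℤˣ) (k : ℕ) (Z U : Set (ι × ι)) : Pts R (ι × ι) where
  pts C _ _ p := RankLe k p ∧ (∀ x y, p (y, x) = ((ε : ℤ) : C) * p (x, y)) ∧ (∀ e ∈ Z, p e = 0) ∧
    ∀ e ∈ U, IsUnit (p e)
  map {C D} _ _ _ _ f p h := ⟨h.1.map (f : C →+* D), fun x y => by
      change f (p (y, x)) = _ * f (p (x, y))
      rw [h.2.1 x y, map_mul, map_intCast],
    fun e he => (congrArg f (h.2.2.1 e he)).trans (map_zero f), fun e he => (h.2.2.2 e he).map f⟩

variable {ι : Type}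

/-- invertible entries, by closed-open decompositions -/
lemma hol_eunits (hP : Clo sep P) {k : ℕ} {ε : ℤˣ} {Z₀ : Set (ι × ι)}
    (h : ∀ Z : Set (ι × ι), Z₀ ⊆ Z → Hol P (EM R ε k Z (∅ : Set (ι × ι))))
    (U : Finset (ι × ι)) (Z : Set (ι × ι)) (hZ : Z₀ ⊆ Z) :
    Hol P (EM R ε k Z (U : Set (ι × ι))) := by
  classical
  induction U using Finset.induction_on generalizing Z with
  | empty => rw [Finset.coe_empty]; exact h Z hZ
  | insert e U _ ih =>
    refine Hol.congr (fun C _ _ p => ?_) ((ih Z hZ).opn (ent e) hP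
      (Hol.congr (fun C _ _ p => ?_) (ih (insert e Z) (hZ.trans (Set.subset_insert _ _)))))
    · rw [Finset.coe_insert]
      constructor
      · rintro ⟨⟨h1, h2, h3, h4⟩, h5⟩
        refine ⟨h1, h2, h3, ?_⟩
        rintro e' (rfl | he)
        · exact h5
        · exact h4 e' he
      · rintro ⟨h1, h2, h3, h4⟩
        exact ⟨⟨h1, h2, h3, fun e' he => h4 e' (Or.inr he)⟩, h4 e (Or.inl rfl)⟩
    · constructor
      · rintro ⟨h1, h2, h3, h4⟩
        exact ⟨⟨h1, h2, fun e' he => h3 e' (Or.inr he), h4⟩, h3 e (Or.inl rfl)⟩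
      · rintro ⟨⟨h1, h2, h3, h4⟩, h5⟩
        refine ⟨h1, h2, ?_, h4⟩
        rintro e' (rfl | he)
        · exact h5
        · exact h3 e' he

lemma bij_ereindex {κ : Type} (ε : ℤˣ) (k : ℕ) (Z : Set (ι × ι)) (e : ι ≃ κ) :
    Bij (EM R ε k {x : κ × κ | (e.symm x.1, e.symm x.2) ∈ Z} ∅) (EM R ε k Z ∅)
      (fun _ _ _ p x => p (e x.1, e x.2)) (fun _ _ _ p x => p (e.symm x.1, e.symm x.2)) where
  natF _ _ _ _ := rfl
  natG _ _ _ _ := rfl
  memF C _ _ p h := by
    obtain ⟨h1, h2, h3, h4⟩ := h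
    refine ⟨fun ρ γ => h1 (fun a => e (ρ a)) (fun b => e (γ b)), fun x y => h2 _ _,
      fun x hx => h3 (e x.1, e x.2) ?_, fun x hx => absurd hx (Set.notMem_empty x)⟩
    change (e.symm (e x.1), e.symm (e x.2)) ∈ Z
    rwa [Equiv.symm_apply_apply, Equiv.symm_apply_apply]
  memG C _ _ p h := by
    obtain ⟨h1, h2, h3, h4⟩ := h
    exact ⟨fun ρ γ => h1 (fun a => e.symm (ρ a)) (fun b => e.symm (γ b)), fun x y => h2 _ _,
      fun x hx => h3 _ hx, fun x hx => absurd hx (Set.notMem_empty x)⟩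
  GF C _ _ p h := by
    funext x
    change p (e (e.symm x.1), e (e.symm x.2)) = p x
    rw [Equiv.apply_symm_apply, Equiv.apply_symm_apply]
  FG C _ _ p h := by
    funext x
    change p (e.symm (e x.1), e.symm (e x.2)) = p x
    rw [Equiv.symm_apply_apply, Equiv.symm_apply_apply]

lemma zer_sy (k : ℕ) (Z : Set (ι × ι)) (C : Type) [CommRing C] [Algebra R C] (p : ι × ι → C) :
    (zer (syEqs R k Z)).pts C p ↔ (EM R 1 k Z ∅).pts C p := by
  constructor
  · intro h
    obtain ⟨h1, h2, -, -⟩ := (zer_rk k Z C p).mp fun g hg => h g (Or.inl hg)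
    refine ⟨h1, fun x y => ?_, h2, fun e he => absurd he (Set.notMem_empty e)⟩
    have h3 := h _ (Or.inr ⟨y, x, rfl⟩)
    rw [map_sub, aeval_X, aeval_X, sub_eq_zero] at h3
    rw [h3, Units.val_one, Int.cast_one, one_mul]
  · rintro ⟨h1, h2, h3, -⟩ g (hg | ⟨i, j, rfl⟩)
    · exact (zer_rk k Z C p).mpr ⟨h1, h3, fun e he => absurd he (Set.notMem_empty e),
        fun e he => absurd he (Set.notMem_empty e)⟩ g hg
    · rw [map_sub, aeval_X, aeval_X, h2 j i, Units.val_one, Int.cast_one, one_mul, sub_self]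

/-- the diagonal -/
def dia (ι : Type) : Set (ι × ι) := {e | e.1 = e.2}

lemma zer_al (k : ℕ) (Z : Set (ι × ι)) (C : Type) [CommRing C] [Algebra R C] (p : ι × ι → C) :
    (zer (alEqs R k Z)).pts C p ↔ (EM R (-1) k (Z ∪ dia ι) ∅).pts C p := by
  constructor
  · intro h
    obtain ⟨h1, h2, -, -⟩ := (zer_rk k Z C p).mp fun g hg => h g (Or.inl hg)
    refine ⟨h1, fun x y => ?_, ?_, fun e he => absurd he (Set.notMem_empty e)⟩
    · have h3 := h _ (Or.inr (Or.inl ⟨y, x, rfl⟩))
      rw [map_add, aeval_X, aeval_X] at h3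
      rw [eq_neg_of_add_eq_zero_left h3]
      simp
    · rintro ⟨x, y⟩ (he | he)
      · exact h2 _ he
      · have he' : x = y := he
        subst he'
        have h3 := h _ (Or.inr (Or.inr ⟨x, rfl⟩))
        rwa [aeval_X] at h3
  · rintro ⟨h1, h2, h3, -⟩ g (hg | ⟨i, j, rfl⟩ | ⟨i, rfl⟩)
    · exact (zer_rk k Z C p).mpr ⟨h1, fun e he => h3 e (Or.inl he),
        fun e he => absurd he (Set.notMem_empty e),
        fun e he => absurd he (Set.notMem_empty e)⟩ g hg
    · rw [map_add, aeval_X, aeval_X, h2 i j]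
      simp
    · rw [aeval_X]
      exact h3 _ (Or.inr rfl)

/-- the family, for arbitrary finite index sets -/
lemma hol_sym {k : ℕ} (h : OnSymmetric k P) [Finite ι] (Z : Set (ι × ι)) :
    Hol P (EM R 1 k Z ∅) := by
  classical
  have : Fintype ι := Fintype.ofFinite ι
  let e := Fintype.equivFin ι
  refine Hol.trans ?_ (bij_ereindex 1 k Z e)
  let Z' : Finset (Fin (Fintype.card ι) × Fin (Fintype.card ι)) :=
    Finset.univ.filter fun x => (e.symm x.1, e.symm x.2) ∈ Z
  have h1 : (Z' : Set (Fin (Fintype.card ι) × Fin (Fintype.card ι))) =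
      {x | (e.symm x.1, e.symm x.2) ∈ Z} := by
    ext x
    simp [Z']
  rw [← h1]
  exact Hol.congr (fun C _ _ p => zer_sy k _ C p)
    ⟨_, inferInstance, inferInstance, inferInstance, _, rep_zer _, h _ Z'⟩

/-- the family, for arbitrary finite index sets -/
lemma hol_alt {k : ℕ} (h : OnAlternating k P) [Finite ι] (Z : Set (ι × ι)) (hZ : dia ι ⊆ Z) :
    Hol P (EM R (-1) k Z ∅) := by
  classical
  have : Fintype ι := Fintype.ofFinite ι
  let e := Fintype.equivFin ι
  refine Hol.trans ?_ (bij_ereindex (-1) k Z e)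
  let Z' : Finset (Fin (Fintype.card ι) × Fin (Fintype.card ι)) :=
    Finset.univ.filter fun x => (e.symm x.1, e.symm x.2) ∈ Z
  have h1 : (Z' : Set (Fin (Fintype.card ι) × Fin (Fintype.card ι))) ∪ dia _ =
      {x | (e.symm x.1, e.symm x.2) ∈ Z} := by
    ext x
    simp only [Z', Set.mem_union, Finset.mem_coe, Finset.mem_filter, Finset.mem_univ, true_and,
      Set.mem_ofPred_eq]
    constructor
    · rintro (h | h)
      · exact h
      · apply hZ
        have h' : x.1 = x.2 := h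
        exact congrArg e.symm h'
    · exact Or.inl
  rw [← h1]
  exact Hol.congr (fun C _ _ p => zer_al k _ C p)
    ⟨_, inferInstance, inferInstance, inferInstance, _, rep_zer _, h _ Z'⟩

end Pool.Agent.H38.SA
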