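import Pool.Agent.H38.SA.Main

/-!
# Finitely many members of a universal family suffice for one scheme
-/

set_option autoImplicit false

open CategoryTheory AlgebraicGeometry MvPolynomial Pool.Agent.Y116.UV Pool.Agent.Q282.UK
  Pool.Agent.Q193.LT Pool.Agent.H81.RZ

namespace Pool.Agent.H38.SA

variable {R : Type} [CommRing R] {sep : Prop}

/-- Finitely many members of a universal family decide one scheme. -/
theorem finite_members {I : Type} (M : I → Sch R)
    (h : ∀ P : Sch R → Prop, Clo sep P → (∀ i, P (M i)) → OnAll sep P) (X : Sch R)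
    (hX : FT sep X) :
    ∃ L : List I, ∀ Q : Sch R → Prop, Clo sep Q → (∀ i ∈ L, Q (M i)) → Q X := by
  refine h (fun Z => ∃ L : List I, ∀ Q : Sch R → Prop, Clo sep Q → (∀ i ∈ L, Q (M i)) → Q Z)
    ?_ (fun i => ⟨[i], fun Q _ hQ => hQ i (List.mem_singleton_self i)⟩) X hX
  exact {
    iso := fun hX e ⟨L, hL⟩ => ⟨L, fun Q hQ h => hQ.iso hX e (hL Q hQ h)⟩
    total := fun i j hX ht ⟨L, hL⟩ ⟨L', hL'⟩ => ⟨L ++ L', fun Q hQ h => hQ.total i j hX ht
      (hL Q hQ fun a ha => h a (List.mem_append_left L' ha))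
      (hL' Q hQ fun a ha => h a (List.mem_append_right L ha))⟩
    opened := fun i j hX ht ⟨L, hL⟩ ⟨L', hL'⟩ => ⟨L ++ L', fun Q hQ h => hQ.opened i j hX ht
      (hL Q hQ fun a ha => h a (List.mem_append_left L' ha))
      (hL' Q hQ fun a ha => h a (List.mem_append_right L ha))⟩
    torus := fun A _ _ _ ⟨L, hL⟩ => ⟨L, fun Q hQ h => hQ.torus A (hL Q hQ h)⟩ }

/-- a set of places of an `n × n` matrix -/
abbrev Places : Type := Σ n : ℕ, Finset (Fin n × Fin n)

/-- For every scheme finitely many schemes of symmetric matrices of rank at most `r` with prescribed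
zeros suffice. -/
theorem fin_sym [IsNoetherianRing R] (hR : Frac R) {r : ℕ} (hr : 3 ≤ r) (X : Sch R)
    (hX : FT sep X) :
    ∃ L : List Places, ∀ Q : Sch R → Prop, Clo sep Q →
      (∀ c ∈ L, Q (Y116.UV.aff R (SyRk R r c.2))) → Q X :=
  finite_members (fun c : Places => Y116.UV.aff R (SyRk R r c.2))
    (fun _ hP h => (clo_sym hR hP hr).mpr fun n Z => h ⟨n, Z⟩) X hX

/-- For every scheme finitely many schemes of alternating matrices of rank at most `2 r` with
prescribed zeros suffice. -/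
theorem fin_alt [IsNoetherianRing R] (hR : Frac R) {r : ℕ} (hr : 2 ≤ r) (X : Sch R)
    (hX : FT sep X) :
    ∃ L : List Places, ∀ Q : Sch R → Prop, Clo sep Q →
      (∀ c ∈ L, Q (Y116.UV.aff R (AlRk R (2 * r) c.2))) → Q X :=
  finite_members (fun c : Places => Y116.UV.aff R (AlRk R (2 * r) c.2))
    (fun _ hP h => (clo_alt hR hP hr).mpr fun n Z => h ⟨n, Z⟩) X hX

end Pool.Agent.H38.SA
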