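import Pool.Agent.H38.SA.Em

/-!
# From symmetric and antisymmetric matrices of small rank to arbitrary matrices of the same rank

The matrices have the rows and columns `ι ⊕ κ`; the block `ι × κ` is an arbitrary matrix of rank at most
`k` with an invertible diagonal `k × k` block.
-/

set_option autoImplicit false
set_option linter.unusedSectionVars false

open CategoryTheory AlgebraicGeometry MvPolynomial Pool.Agent.Y116.UV Pool.Agent.Q282.UK
  Pool.Agent.H81.RZ

namespace Pool.Agent.H38.SA

variable {R : Type} [CommRing R] {sep : Prop} {P : Sch R → Prop}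

/-- a matrix of small rank with an invertible diagonal block -/
lemma expand' {ι κ δ : Type} [Fintype δ] [DecidableEq δ] {k : ℕ} {C : Type} [CommRing C]
    (hk : Fintype.card δ = k) {p : ι × κ → C} (h : RankLe k p) (f : δ → ι)
    (g : δ → κ) (h0 : ∀ a b, a ≠ b → p (f a, g b) = 0) (h1 : ∀ a, IsUnit (p (f a, g a)))
    (i : ι) (j : κ) :
    p (i, j) = ∑ a, p (i, g a) * (Ring.inverse (p (f a, g a)) * p (f a, j)) := by
  let φ : ι ⊕ δ → ι := Sum.elim id f
  let w : ι ⊕ δ → C := Sum.elim (fun _ => 1) fun a => Ring.inverse (p (f a, g a))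
  have h2 : RankLe k fun e : (ι ⊕ δ) × κ => p (φ e.1, e.2) := fun ρ γ => h (fun a => φ (ρ a)) γ
  have h3 := rankLe_row h2 w
  have h4 := RankLe.expand hk h3 (fun a => Sum.inr a) g (fun a b => by
    change Ring.inverse (p (f a, g a)) * p (f a, g b) = _
    split_ifs with hab
    · subst hab
      exact Ring.inverse_mul_cancel _ (h1 a)
    · rw [h0 a b hab, mul_zero]) (.inl i) j
  change 1 * p (i, j) = ∑ a, 1 * p (i, g a) * (Ring.inverse (p (f a, g a)) * p (f a, j)) at h4
  rw [one_mul] at h4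
  rw [h4]
  exact Finset.sum_congr rfl fun a _ => by rw [one_mul]

/-- the product with a torus -/
def tor {σ : Type} (S : Pts R σ) (O : Type) : Pts R (σ ⊕ O) where
  pts C _ _ p := S.pts C (fun s => p (.inl s)) ∧ ∀ o, IsUnit (p (.inr o))
  map f _ h := ⟨S.map f h.1, fun o => (h.2 o).map f⟩

lemma bij_tor_equiv {σ : Type} (S : Pts R σ) {O O' : Type} (e : O ≃ O') :
    Bij (tor S O') (tor S O)
      (fun _ _ _ p t => Sum.elim (fun s => p (.inl s)) (fun t => p (.inr (e t))) t)
      (fun _ _ _ p t => Sum.elim (fun s => p (.inl s)) (fun t => p (.inr (e.symm t))) t) where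
  natF f p _ t := by rcases t with s | t <;> rfl
  natG f p _ t := by rcases t with s | t <;> rfl
  memF C _ _ p h := ⟨h.1, fun o => h.2 (e o)⟩
  memG C _ _ p h := ⟨h.1, fun o => h.2 (e.symm o)⟩
  GF C _ _ p _ := by
    funext t
    rcases t with s | t
    · rfl
    · change p (.inr (e (e.symm t))) = p (.inr t)
      rw [Equiv.apply_symm_apply]
  FG C _ _ p _ := by
    funext t
    rcases t with s | t
    · rfl
    · change p (.inr (e.symm (e t))) = p (.inr t)
      rw [Equiv.symm_apply_apply]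

lemma bij_tor_option {σ : Type} (S : Pts R σ) (O : Type) :
    Bij (tor S (Option O)) (tor S O).gm
      (fun _ _ _ p t => t.elim (p (.inr none))
        fun t => Sum.elim (fun s => p (.inl s)) (fun t => p (.inr (some t))) t)
      (fun _ _ _ q t => Sum.elim (fun s => q (some (.inl s)))
        (fun t => t.elim (q none) fun t => q (some (.inr t))) t) where
  natF f p _ t := by rcases t with _ | s | t <;> rfl
  natG f p _ t := by rcases t with s | _ | t <;> rfl
  memF C _ _ p h := ⟨⟨h.1, fun o => h.2 (some o)⟩, h.2 none⟩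
  memG C _ _ p h := ⟨h.1.1, fun o => by
    rcases o with _ | o
    · exact h.2
    · exact h.1.2 o⟩
  GF C _ _ p _ := by
    funext t
    rcases t with s | _ | t <;> rfl
  FG C _ _ p _ := by
    funext t
    rcases t with _ | s | t <;> rfl

lemma bij_tor_empty {σ : Type} (S : Pts R σ) :
    Bij (tor S PEmpty) S (fun _ _ _ p s => p (.inl s)) (fun _ _ _ q t => Sum.elim q PEmpty.elim t)
    where
  natF f p _ t := rfl
  natG f p _ t := by
    rcases t with s | t
    · rfl
    · exact t.elim
  memF C _ _ p h := h.1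
  memG C _ _ p h := ⟨h, fun o => o.elim⟩
  GF C _ _ p _ := by
    funext t
    rcases t with s | t
    · rfl
    · exact t.elim
  FG C _ _ p _ := rfl

lemma repr_tor_equiv {σ : Type} {S : Pts R σ} {O O' : Type} (e : O ≃ O') (h : Repr (tor S O)) :
    Repr (tor S O') :=
  h.trans (bij_tor_equiv S e.symm)

lemma repr_of_rep {σ : Type} {S : Pts R σ} {A : Type} [CommRing A] [Algebra R A]
    [Algebra.FiniteType R A] {a : σ → A} (h : Rep S A a) : Repr S :=
  ⟨A, inferInstance, inferInstance, inferInstance, a, h, trivial⟩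

lemma repr_gm {σ : Type} {S : Pts R σ} (h : Repr S) : Repr S.gm := by
  obtain ⟨A, i1, i2, i3, a, h1, -⟩ := h
  have h2 : Algebra.FiniteType R (LaurentPolynomial A) :=
    Algebra.FiniteType.trans (S := A) inferInstance inferInstance
  exact repr_of_rep h1.gm

/-- removing a torus -/
lemma of_tor (hP : Clo sep P) (O : Type) [Finite O] : ∀ {σ : Type} {S : Pts R σ}, Repr S →
    Repr (tor S O) ∧ (Hol P (tor S O) → Hol P S) := by
  apply Finite.induction_empty_option (P := fun O => ∀ {σ : Type} {S : Pts R σ}, Repr S →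
    Repr (tor S O) ∧ (Hol P (tor S O) → Hol P S))
  · intro O O' e ih σ S hS
    exact ⟨repr_tor_equiv e (ih hS).1, fun h => (ih hS).2 (h.trans (bij_tor_equiv S e))⟩
  · intro σ S hS
    have hb := bij_tor_empty S
    refine ⟨?_, fun h => h.trans hb⟩
    exact hS.trans (F := fun _ _ _ q t => Sum.elim q PEmpty.elim t)
      (G := fun _ _ _ p s => p (.inl s))
      ⟨hb.natG, hb.natF, hb.memG, hb.memF, hb.FG, hb.GF⟩
  · intro O _ ih σ S hS
    have hb := bij_tor_option S O
    refine ⟨?_, fun h => (ih hS).2 (Hol.of_gm hP (ih hS).1 (h.trans hb))⟩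
    exact (repr_gm (ih hS).1).trans (F := fun _ _ _ q t => Sum.elim (fun s => q (some (.inl s)))
        (fun t => t.elim (q none) fun t => q (some (.inr t))) t)
      (G := fun _ _ _ p t => t.elim (p (.inr none))
        fun t => Sum.elim (fun s => p (.inl s)) (fun t => p (.inr (some t))) t)
      ⟨hb.natG, hb.natF, hb.memG, hb.memF, hb.FG, hb.GF⟩

/-- an involution of the frame, with signs -/
structure Fr (δ O : Type) (ε : ℤˣ) where
  /-- the involution -/
  π : δ → δ
  /-- the orbit -/
  rep : δ → O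
  /-- a member of the orbit -/
  sec : O → δ
  /-- the signs -/
  sgn : δ → ℤˣ
  inv : ∀ a, π (π a) = a
  rep_sec : ∀ o, rep (sec o) = o
  sgn_sec : ∀ o, sgn (sec o) = 1
  rep_π : ∀ a, rep (π a) = rep a
  sgn_π : ∀ a, sgn (π a) = ε * sgn a
  orb : ∀ a, a = sec (rep a) ∨ a = π (sec (rep a))

section

variable {ι κ δ O : Type} {ε : ℤˣ} (F : Fr δ O ε) (f : δ → ι) (g : δ → κ)

/-- the zeros -/
def zs (Z : Set (ι × κ)) : (ι ⊕ κ) → (ι ⊕ κ) → Prop
  | .inl i, .inr j => (i, j) ∈ Z
  | .inr j, .inl i => (i, j) ∈ Z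
  | .inl i, .inl i' => ∃ a b, i = f a ∧ i' = f b ∧ b ≠ F.π a
  | .inr _, .inr _ => False

/-- the units -/
def us (U : Set (ι × κ)) : (ι ⊕ κ) → (ι ⊕ κ) → Prop
  | .inl i, .inr j => (i, j) ∈ U
  | .inr _, .inl _ => False
  | .inl i, .inl i' => ∃ a, i = f a ∧ i' = f (F.π a)
  | .inr _, .inr _ => False

variable {C : Type} [CommRing C]

/-- the units of the frame -/
def uu (q : (ι × κ) ⊕ O → C) (a : δ) : C := (((F.sgn a : ℤˣ) : ℤ) : C) * q (.inr (F.rep a))

/-- the vectors -/
noncomputable def vv (q : (ι × κ) ⊕ O → C) : ι ⊕ κ → δ → C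
  | .inl i, a => q (.inl (i, g a)) * Ring.inverse (q (.inl (f a, g a)))
  | .inr j, a => Ring.inverse (uu F q (F.π a)) * q (.inl (f (F.π a), j))

/-- the matrix -/
noncomputable def ma [Fintype δ] (q : (ι × κ) ⊕ O → C) (e : (ι ⊕ κ) × (ι ⊕ κ)) : C :=
  ∑ a, vv F f g q e.1 a * uu F q a * vv F f g q e.2 (F.π a)

lemma isUnit_sgn (s : ℤˣ) : IsUnit ((s : ℤ) : C) := s.isUnit.map (Int.castRingHom C)

lemma sgn_sq (s : ℤˣ) : ((s : ℤ) : C) * ((s : ℤ) : C) = 1 := by
  rcases Int.units_eq_one_or s with rfl | rfl <;> simp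

lemma inverse_neg' (x : C) : Ring.inverse (-x) = -Ring.inverse x := by
  by_cases hx : IsUnit x
  · obtain ⟨v, rfl⟩ := hx
    have h1 : (-(v : C)) = ((-v : Cˣ) : C) := rfl
    rw [h1, Ring.inverse_unit, Ring.inverse_unit]
    simp
  · have h1 : ¬ IsUnit (-x) := fun h => hx (by simpa using h)
    rw [Ring.inverse_non_unit _ hx, Ring.inverse_non_unit _ h1, neg_zero]

lemma inv_sgn (s : ℤˣ) (x : C) : Ring.inverse (((s : ℤ) : C) * x) = ((s : ℤ) : C) * Ring.inverse x := by
  rcases Int.units_eq_one_or s with rfl | rfl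
  · simp
  · simp only [Units.val_neg, Units.val_one, Int.cast_neg, Int.cast_one, neg_one_mul]
    exact inverse_neg' x

lemma uu_π (q : (ι × κ) ⊕ O → C) (a : δ) : uu F q (F.π a) = ((ε : ℤ) : C) * uu F q a := by
  rw [uu, uu, F.rep_π, F.sgn_π, Units.val_mul, Int.cast_mul, mul_assoc]

end

section main

variable {ι κ δ O : Type} {ε : ℤˣ} (F : Fr δ O ε) (f : δ → ι) (g : δ → κ)
  [Fintype δ] [DecidableEq δ] {k : ℕ} (hk : Fintype.card δ = k) (Z U : Set (ι × κ))
  (hZ : ∀ a b, a ≠ b → (f a, g b) ∈ Z) (hU : ∀ a, (f a, g a) ∈ U)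

section one

variable {C : Type} [CommRing C] [Algebra R C] {q : (ι × κ) ⊕ O → C}
  (hq : (tor (MS R k Z U ∅) O).pts C q)

include hq

lemma isUnit_uu (a : δ) : IsUnit (uu F q a) := (isUnit_sgn _).mul (hq.2 _)

include hU in
lemma isUnit_fg (a : δ) : IsUnit (q (.inl (f a, g a))) := hq.1.2.2.1 _ (hU a)

include hZ hU in
lemma vv_f (a b : δ) : vv F f g q (.inl (f a)) b = if a = b then 1 else 0 := by
  change q (.inl (f a, g b)) * Ring.inverse (q (.inl (f b, g b))) = _
  split_ifs with h
  · subst h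
    exact Ring.mul_inverse_cancel _ (isUnit_fg (R := R) f g Z U hU hq a)
  · have h1 : q (.inl (f a, g b)) = 0 := hq.1.2.1 _ (hZ a b h)
    rw [h1, zero_mul]

include hk hZ hU in
lemma ma_lr (i : ι) (j : κ) : ma F f g q (.inl i, .inr j) = q (.inl (i, j)) := by
  have h1 := expand' hk (p := fun e : ι × κ => q (.inl e)) hq.1.1 f g
    (fun a b hab => hq.1.2.1 _ (hZ a b hab)) (fun a => isUnit_fg (R := R) f g Z U hU hq a) i j
  change q (.inl (i, j)) = ∑ a, q (.inl (i, g a)) *
    (Ring.inverse (q (.inl (f a, g a))) * q (.inl (f a, j))) at h1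
  rw [h1]
  apply Finset.sum_congr rfl
  intro a _
  change q (.inl (i, g a)) * Ring.inverse (q (.inl (f a, g a))) * uu F q a *
    (Ring.inverse (uu F q (F.π (F.π a))) * q (.inl (f (F.π (F.π a)), j))) = _
  rw [F.inv]
  have h2 := Ring.mul_inverse_cancel _ (isUnit_uu (R := R) F Z U hq a)
  linear_combination q (.inl (i, g a)) * Ring.inverse (q (.inl (f a, g a))) * q (.inl (f a, j)) * h2

include hZ hU in
lemma ma_ff (a b : δ) : ma F f g q (.inl (f a), .inl (f b)) = if b = F.π a then uu F q a else 0 := by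
  change ∑ c, vv F f g q (.inl (f a)) c * uu F q c * vv F f g q (.inl (f b)) (F.π c) = _
  rw [Finset.sum_eq_single a]
  · rw [vv_f (R := R) F f g Z U hZ hU hq, vv_f (R := R) F f g Z U hZ hU hq, if_pos rfl, one_mul]
    split_ifs
    · rw [mul_one]
    · rw [mul_zero]
  · intro c _ hc
    rw [vv_f (R := R) F f g Z U hZ hU hq, if_neg hc.symm, zero_mul, zero_mul]
  · intro h
    exact absurd (Finset.mem_univ a) h

omit hq in
lemma ma_symm (x y : ι ⊕ κ) : ma F f g q (y, x) = ((ε : ℤ) : C) * ma F f g q (x, y) := by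
  have h1 := Equiv.sum_comp (Function.Involutive.toPerm F.π F.inv) fun a =>
    vv F f g q y a * uu F q a * vv F f g q x (F.π a)
  change ∑ a, vv F f g q y (F.π a) * uu F q (F.π a) * vv F f g q x (F.π (F.π a)) =
    ma F f g q (y, x) at h1
  rw [← h1, ma, Finset.mul_sum]
  apply Finset.sum_congr rfl
  intro a _
  rw [F.inv, uu_π]
  ring

end one

/-- the zeros of the large matrices -/
def ZZ (W : Set ((ι ⊕ κ) × (ι ⊕ κ))) : Set ((ι ⊕ κ) × (ι ⊕ κ)) := {e | zs F f Z e.1 e.2} ∪ W

include hk hZ hU in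
/-- **the large matrices are the small ones and a torus** -/
lemma bij_frame (W : Set ((ι ⊕ κ) × (ι ⊕ κ)))
    (hW : ∀ (C : Type) [CommRing C] [Algebra R C] (q : (ι × κ) ⊕ O → C),
      (tor (MS R k Z U ∅) O).pts C q → ∀ e ∈ W, ma F f g q e = 0) :
    Bij (EM R ε k (ZZ F f Z W) {e | us F f U e.1 e.2}) (tor (MS R k Z U ∅) O)
      (fun _ _ _ p t => Sum.elim (fun e : ι × κ => p (.inl e.1, .inr e.2))
        (fun o => p (.inl (f (F.sec o)), .inl (f (F.π (F.sec o))))) t)
      (fun _ _ _ q e => ma F f g q e) where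
  natF h p _ t := by rcases t with e | o <;> rfl
  natG {C D} _ _ _ _ h q hq e := by
    have h1 : ∀ a, h (uu F q a) = uu F (fun s => h (q s)) a := by
      intro a
      rw [uu, uu, map_mul, map_intCast]
    have h2 : ∀ x a, h (vv F f g q x a) = vv F f g (fun s => h (q s)) x a := by
      intro x a
      rcases x with i | j
      · change h (q (.inl (i, g a)) * Ring.inverse (q (.inl (f a, g a)))) =
          h (q (.inl (i, g a))) * Ring.inverse (h (q (.inl (f a, g a))))
        rw [map_mul]
        congr 1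
        exact map_inverse_of_isUnit (h : C →+* D) (isUnit_fg (R := R) f g Z U hU hq a)
      · change h (Ring.inverse (uu F q (F.π a)) * q (.inl (f (F.π a), j))) =
          Ring.inverse (uu F (fun s => h (q s)) (F.π a)) * h (q (.inl (f (F.π a), j)))
        rw [map_mul, ← h1]
        congr 1
        exact map_inverse_of_isUnit (h : C →+* D) (isUnit_uu (R := R) F Z U hq _)
    change h (∑ a, _) = ∑ a, _
    rw [map_sum]
    apply Finset.sum_congr rfl
    intro a _
    rw [map_mul, map_mul, h2, h2, h1]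
  memF C _ _ p hp := by
    obtain ⟨h1, -, h3, h4⟩ := hp
    refine ⟨⟨fun ρ γ => h1 (fun a => .inl (ρ a)) (fun b => .inr (γ b)), fun e he => ?_,
      fun e he => ?_, fun e he => absurd he (Set.notMem_empty e)⟩, fun o => ?_⟩
    · exact h3 (.inl e.1, .inr e.2) (Or.inl he)
    · exact h4 (.inl e.1, .inr e.2) he
    · exact h4 (.inl (f (F.sec o)), .inl (f (F.π (F.sec o)))) ⟨_, rfl, rfl⟩
  memG C _ _ q hq := by
    refine ⟨?_, fun x y => ma_symm F f g x y, ?_, ?_⟩
    · exact rankLe_mul hk (fun x a => vv F f g q x a * uu F q a) (fun y a => vv F f g q y (F.π a))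
    · rintro ⟨x, y⟩ (he | he)
      · change ma F f g q (x, y) = 0
        rcases x with i | j <;> rcases y with i' | j'
        · obtain ⟨a, b, rfl, rfl, hab⟩ := he
          rw [ma_ff (R := R) F f g Z U hZ hU hq, if_neg hab]
        · rw [ma_lr (R := R) F f g hk Z U hZ hU hq]
          exact hq.1.2.1 _ he
        · rw [ma_symm, ma_lr (R := R) F f g hk Z U hZ hU hq]
          have h1 : q (.inl (i', j)) = 0 := hq.1.2.1 _ he
          rw [h1, mul_zero]
        · exact he.elim
      · exact hW C q hq _ he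
    · rintro ⟨x, y⟩ he
      change IsUnit (ma F f g q (x, y))
      rcases x with i | j <;> rcases y with i' | j'
      · obtain ⟨a, rfl, rfl⟩ := he
        rw [ma_ff (R := R) F f g Z U hZ hU hq, if_pos rfl]
        exact isUnit_uu (R := R) F Z U hq a
      · rw [ma_lr (R := R) F f g hk Z U hZ hU hq]
        exact hq.1.2.2.1 _ he
      · exact he.elim
      · exact he.elim
  GF C _ _ p hp := by
    obtain ⟨h1, h2, h3, h4⟩ := hp
    let q : (ι × κ) ⊕ O → C := fun t => Sum.elim (fun e : ι × κ => p (.inl e.1, .inr e.2))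
        (fun o => p (.inl (f (F.sec o)), .inl (f (F.π (F.sec o))))) t
    have hG : ∀ a, uu F q a = p (.inl (f a), .inl (f (F.π a))) := by
      intro a
      rcases F.orb a with ha | ha
      · have h5 : F.sgn a = 1 := by rw [ha]; exact F.sgn_sec _
        rw [uu, h5]
        change ((1 : ℤˣ) : ℤ) * p (.inl (f (F.sec (F.rep a))), .inl (f (F.π (F.sec (F.rep a))))) = _
        rw [← ha]
        simp
      · have h5 : F.sgn a = ε := by
          rw [ha, F.sgn_π, F.sgn_sec, mul_one]
        have h6 : F.sec (F.rep a) = F.π a := by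
          conv_rhs => rw [ha]
          rw [F.inv]
        rw [uu, h5]
        change ((ε : ℤ) : C) * p (.inl (f (F.sec (F.rep a))), .inl (f (F.π (F.sec (F.rep a))))) = _
        rw [h6, F.inv, ← h2]
    have hu : ∀ a, IsUnit (p (.inl (f a), .inl (f (F.π a)))) := fun a => h4 _ ⟨a, rfl, rfl⟩
    have hu' : ∀ a, IsUnit (p (.inl (f a), .inr (g a))) := fun a =>
      h4 (.inl (f a), .inr (g a)) (hU a)
    have hz' : ∀ a b, a ≠ b → p (.inl (f a), .inr (g b)) = 0 := fun a b hab =>
      h3 (.inl (f a), .inr (g b)) (Or.inl (hZ a b hab))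
    have hE : ∀ x y, p (x, y) = ∑ a, p (x, .inl (f (F.π a))) *
        (Ring.inverse (p (.inl (f a), .inl (f (F.π a)))) * p (.inl (f a), y)) := by
      intro x y
      refine expand' hk h1 (fun a => .inl (f a)) (fun a => .inl (f (F.π a))) (fun a b hab => ?_)
        hu x y
      refine h3 (.inl (f a), .inl (f (F.π b))) (Or.inl ⟨a, F.π b, rfl, rfl, fun h => hab ?_⟩)
      rw [← F.inv a, ← h, F.inv]
    have hi : ∀ a, Ring.inverse (p (.inl (f (F.π a)), .inl (f (F.π (F.π a))))) =
        ((ε : ℤ) : C) * Ring.inverse (p (.inl (f a), .inl (f (F.π a)))) := by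
      intro a
      rw [F.inv, h2, inv_sgn]
    have hv : ∀ x a, vv F f g q x a =
        p (x, .inl (f (F.π a))) * Ring.inverse (p (.inl (f a), .inl (f (F.π a)))) := by
      intro x a
      rcases x with i | j
      · change p (.inl i, .inr (g a)) * Ring.inverse (p (.inl (f a), .inr (g a))) = _
        have h5 := hE (.inl i) (.inr (g a))
        rw [Finset.sum_eq_single a (fun b _ hb => by rw [hz' b a hb, mul_zero, mul_zero])
          (fun h => absurd (Finset.mem_univ a) h)] at h5
        have h6 := Ring.mul_inverse_cancel _ (hu' a)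
        rw [h5]
        linear_combination p (.inl i, .inl (f (F.π a))) *
          Ring.inverse (p (.inl (f a), .inl (f (F.π a)))) * h6
      · change Ring.inverse (uu F q (F.π a)) * p (.inl (f (F.π a)), .inr j) = _
        rw [hG, hi, h2 (.inl (f (F.π a))) (.inr j)]
        ring
    funext e
    obtain ⟨x, y⟩ := e
    change ∑ a, vv F f g q x a * uu F q a * vv F f g q y (F.π a) = _
    rw [hE x y]
    apply Finset.sum_congr rfl
    intro a _
    rw [hv, hv, hG, hi, F.inv, h2 y (.inl (f a))]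
    have h6 := Ring.mul_inverse_cancel _ (hu a)
    linear_combination p (x, .inl (f (F.π a))) * p (y, .inl (f a)) * ((ε : ℤ) : C) *
      Ring.inverse (p (.inl (f a), .inl (f (F.π a)))) * h6
  FG C _ _ q hq := by
    funext t
    rcases t with e | o
    · exact ma_lr (R := R) F f g hk Z U hZ hU hq e.1 e.2
    · change ma F f g q (.inl (f (F.sec o)), .inl (f (F.π (F.sec o)))) = q (.inr o)
      rw [ma_ff (R := R) F f g Z U hZ hU hq, if_pos rfl, uu, F.sgn_sec, F.rep_sec]
      simp

end main

end Pool.Agent.H38.SA
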