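import Pool.Agent.H38.SA.Frame

/-!
# Symmetric matrices of rank at most three and alternating matrices of rank at most four decide
everything
-/

set_option autoImplicit false
set_option linter.unusedSectionVars false

open CategoryTheory AlgebraicGeometry MvPolynomial Pool.Agent.Y116.UV Pool.Agent.Q282.UK
  Pool.Agent.Q193.LT Pool.Agent.H81.RZ

namespace Pool.Agent.H38.SA

variable {R : Type} [CommRing R] {sep : Prop} {P : Sch R → Prop}

/-- the frame of the symmetric matrices -/
def frSym (δ : Type) : Fr δ δ 1 where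
  π := id
  rep := id
  sec := id
  sgn _ := 1
  inv _ := rfl
  rep_sec _ := rfl
  sgn_sec _ := rfl
  rep_π _ := rfl
  sgn_π _ := (one_mul _).symm
  orb _ := Or.inl rfl

/-- the frame of the alternating matrices -/
def frAlt {δ O : Type} (e : δ ≃ O ⊕ O) : Fr δ O (-1) where
  π a := e.symm (e a).swap
  rep a := Sum.elim id id (e a)
  sec o := e.symm (.inl o)
  sgn a := Sum.elim (fun _ => 1) (fun _ => -1) (e a)
  inv a := by rw [Equiv.apply_symm_apply, Sum.swap_swap, Equiv.symm_apply_apply]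
  rep_sec o := by rw [Equiv.apply_symm_apply]; rfl
  sgn_sec o := by rw [Equiv.apply_symm_apply]; rfl
  rep_π a := by
    rw [Equiv.apply_symm_apply]
    rcases e a with o | o <;> rfl
  sgn_π a := by
    rw [Equiv.apply_symm_apply]
    rcases e a with o | o
    · exact (mul_one (-1 : ℤˣ)).symm
    · exact (neg_one_mul (-1 : ℤˣ)).symm ▸ (neg_neg (1 : ℤˣ)).symm
  orb a := by
    rcases h : e a with o | o
    · left
      change a = e.symm (.inl o)
      rw [← h, Equiv.symm_apply_apply]
    · right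
      change a = e.symm (e (e.symm (.inl o))).swap
      rw [Equiv.apply_symm_apply]
      change a = e.symm (.inr o)
      rw [← h, Equiv.symm_apply_apply]

lemma frAlt_ne {δ O : Type} (e : δ ≃ O ⊕ O) (a : δ) : (frAlt e).π a ≠ a := by
  intro h
  have h1 := congrArg e h
  change e (e.symm (e a).swap) = e a at h1
  rw [Equiv.apply_symm_apply] at h1
  rcases h2 : e a with o | o
  · rw [h2] at h1
    exact Sum.inr_ne_inl h1
  · rw [h2] at h1
    exact Sum.inl_ne_inr h1

/-- the alternating matrices are zero on the diagonal -/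
lemma ma_dia {ι κ δ O : Type} (F : Fr δ O (-1)) (hF : ∀ a, F.π a ≠ a) (f : δ → ι) (g : δ → κ)
    [Fintype δ] [DecidableEq δ] {C : Type} [CommRing C] (q : (ι × κ) ⊕ O → C) (x : ι ⊕ κ) :
    ma F f g q (x, x) = 0 := by
  refine Finset.sum_involution (fun a _ => F.π a) (fun a _ => ?_) (fun a _ _ => hF a)
    (fun a _ => Finset.mem_univ _) (fun a _ => F.inv a)
  rw [F.inv, uu_π]
  simp only [Units.val_neg, Units.val_one, Int.cast_neg, Int.cast_one]
  ring

section

variable {V E : Type} [Fintype V] [Fintype E] {s : ℕ}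

/-- from the large matrices to the systems -/
theorem slp_of_big (hP : Clo sep P) {ε : ℤˣ} (Y : Sys V E) {O : Type} [Finite O]
    (F : Fr (Fin 3 ⊕ Fin s) O ε) (W : Set ((Rw V s ⊕ Cl V E s) × (Rw V s ⊕ Cl V E s)))
    (hW : ∀ (C : Type) [CommRing C] (q : (Rw V s × Cl V E s) ⊕ O → C), ∀ e ∈ W,
      ma F (Rw.D : _ → Rw V s) (Cl.D : _ → Cl V E s) q e = 0)
    (h : ∀ Z : Set ((Rw V s ⊕ Cl V E s) × (Rw V s ⊕ Cl V E s)), W ⊆ Z →
      Hol P (EM R ε (3 + s) Z ∅)) : Hol P (slp R Y) := by
  classical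
  refine hol_slp' (s := s) hP Y fun U hU => ?_
  have hr := repr_ms1 (R := R) (3 + s) {e : Rw V s × Cl V E s | zz Y e.1 e.2} U
  refine (of_tor hP O hr).2 ?_
  let U' : Finset ((Rw V s ⊕ Cl V E s) × (Rw V s ⊕ Cl V E s)) :=
    Finset.univ.filter fun e => us F (Rw.D : _ → Rw V s) (U : Set _) e.1 e.2
  have hU' : (U' : Set ((Rw V s ⊕ Cl V E s) × (Rw V s ⊕ Cl V E s))) =
      {e | us F (Rw.D : _ → Rw V s) (U : Set (Rw V s × Cl V E s)) e.1 e.2} := by
    ext e
    simp [U']
  have h1 := hol_eunits hP h U'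
    (ZZ F (Rw.D : _ → Rw V s) {e : Rw V s × Cl V E s | zz Y e.1 e.2} W) Set.subset_union_right
  rw [hU'] at h1
  exact h1.trans (bij_frame F (Rw.D : _ → Rw V s) (Cl.D : _ → Cl V E s) (by simp) _ _
    (fun a b hab => hab) (fun a => (hU _).mpr rfl) W fun C _ _ q _ => hW C q)

end

/-- **Universality of the symmetric matrices of rank at most `r` with prescribed zeros, `r ≥ 3`.** -/
theorem clo_sym [IsNoetherianRing R] (hR : Frac R) (hP : Clo sep P) {r : ℕ} (hr : 3 ≤ r) :
    OnAll sep P ↔ OnSymmetric r P := by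
  constructor
  · intro h n Z
    exact h _ (ft_aff sep)
  · intro h X hX
    obtain ⟨s, rfl⟩ := Nat.exists_eq_add_of_le hr
    refine all_of_slp hR hP (fun V E _ _ _ _ Y => ?_) X hX
    exact slp_of_big hP Y (frSym (Fin 3 ⊕ Fin s)) ∅ (fun _ _ _ e he =>
      absurd he (Set.notMem_empty e)) fun Z _ => hol_sym h Z

/-- **Universality of the alternating matrices of rank at most `2 r` with prescribed zeros, `r ≥ 2`.** -/
theorem clo_alt [IsNoetherianRing R] (hR : Frac R) (hP : Clo sep P) {r : ℕ} (hr : 2 ≤ r) :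
    OnAll sep P ↔ OnAlternating (2 * r) P := by
  constructor
  · intro h n Z
    exact h _ (ft_aff sep)
  · intro h X hX
    obtain ⟨s, hs⟩ : ∃ s, 2 * r = 3 + s := Nat.exists_eq_add_of_le (by omega)
    rw [hs] at h
    have hc : Fintype.card (Fin 3 ⊕ Fin s) = Fintype.card (Fin r ⊕ Fin r) := by
      simp only [Fintype.card_sum, Fintype.card_fin]
      omega
    let e := Fintype.equivOfCardEq hc
    refine all_of_slp hR hP (fun V E _ _ _ _ Y => ?_) X hX
    refine slp_of_big hP Y (frAlt e) (dia _) (fun C _ q x hx => ?_) fun Z hZ => hol_alt h Z hZ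
    obtain ⟨x, y⟩ := x
    have hxy : x = y := hx
    subst hxy
    exact ma_dia (frAlt e) (frAlt_ne e) _ _ q x

end Pool.Agent.H38.SA
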